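import Mathlib
import Pool.Agent.H27.Gd

set_option autoImplicit false

namespace Pool.Agent.Results.MP_146262_an.GDelta

open Filter Topology Set Pool.Agent.H27.Gd

/-- The rational vector space with a countable basis. -/
abbrev V : Type := ℕ →₀ ℚ

/-- Pseudonorms on `V`. -/
def IsPseudonorm (μ : V → ℝ) : Prop :=
  (∀ v, 0 ≤ μ v) ∧ (∀ u v, μ (u + v) ≤ μ u + μ v) ∧ ∀ (q : ℚ) (v : V), μ (q • v) = |(q : ℝ)| * μ v

/-- `X` is a copy of the completion `X_μ`: an additive map `V → X` has dense range and carries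
`μ` to the norm. -/
def Codes (μ : V → ℝ) (X : Type) [NormedAddCommGroup X] : Prop :=
  ∃ j : V →+ X, DenseRange j ∧ ∀ v, ‖j v‖ = μ v

/-- `X_μ` has the property `Q`. -/
def Has (Q : (X : Type) → [NormedAddCommGroup X] → [NormedSpace ℝ X] → Prop) (μ : V → ℝ) : Prop :=
  ∃ (X : Type) (_ : NormedAddCommGroup X) (_ : NormedSpace ℝ X),
    CompleteSpace X ∧ Codes μ X ∧ Q X

/-- The space of codes of infinite-dimensional separable Banach spaces. -/
abbrev PInf : Type :=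
  {μ : V → ℝ // IsPseudonorm μ ∧ Has (fun X => ¬ FiniteDimensional ℝ X) μ}

/-- The closed unit ball of `X` with the relative weak topology. -/
abbrev WeakBall (X : Type) [NormedAddCommGroup X] [NormedSpace ℝ X] : Type :=
  {x : WeakSpace ℝ X // ‖(toWeakSpace ℝ X).symm x‖ ≤ 1}

/-- The diameter two property. -/
def D2P (X : Type) [NormedAddCommGroup X] [NormedSpace ℝ X] : Prop :=
  ∀ W : Set (WeakBall X), IsOpen W → W.Nonempty →
    Metric.diam ((fun y : WeakBall X => (toWeakSpace ℝ X).symm y.1) '' W) = 2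

/-- The diametral diameter two property. -/
def DD2P (X : Type) [NormedAddCommGroup X] [NormedSpace ℝ X] : Prop :=
  ∀ W : Set (WeakBall X), IsOpen W → ∀ x ∈ W, ∀ ε : ℝ, 0 < ε → ∃ y ∈ W,
    1 + ‖(toWeakSpace ℝ X).symm x.1‖ - ε ≤
      ‖(toWeakSpace ℝ X).symm x.1 - (toWeakSpace ℝ X).symm y.1‖

/-- The open relation for the D2P. -/
def R1 (x : V) (m n : ℕ) : Set ((V → ℝ) × (Fin n → V → ℝ)) :=
  ⋃ y, ⋃ z, {p | p.1 y < 1 ∧ p.1 z < 1 ∧ (∀ i, |p.2 i y - p.2 i x| < 1 / ((m : ℝ) + 1)) ∧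
    (∀ i, |p.2 i z - p.2 i x| < 1 / ((m : ℝ) + 1)) ∧ 2 - 1 / ((m : ℝ) + 1) < p.1 (y - z)}

/-- The open relation for the DD2P. -/
def R2 (x : V) (m n : ℕ) : Set ((V → ℝ) × (Fin n → V → ℝ)) :=
  ⋃ y, {p | p.1 y < 1 ∧ (∀ i, |p.2 i y - p.2 i x| < 1 / ((m : ℝ) + 1)) ∧
    1 + p.1 x - 1 / ((m : ℝ) + 1) < p.1 (x - y)}

theorem open_all {T : Type} [TopologicalSpace T] {n : ℕ} {a : Fin n → T → ℝ}
    (h : ∀ i, Continuous (a i)) (c : ℝ) : IsOpen {p | ∀ i, a i p < c} := by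
  rw [setOf_forall]
  exact isOpen_iInter_of_finite fun i => isOpen_lt (h i) continuous_const

variable {X : Type} [NormedAddCommGroup X] [NormedSpace ℝ X] {j : V →+ X} {μ : V → ℝ}

theorem open_W {n : ℕ} (f : Fin n → X →L[ℝ] ℝ) (a : X) (c : ℝ) :
    IsOpen {y : WeakBall X | ∀ i, |f i ((toWeakSpace ℝ X).symm y.1) - f i a| < c} :=
  open_all (fun i => (((WeakBilin.eval_continuous (topDualPairing ℝ X).flip (f i)).comp
    continuous_subtype_val).sub continuous_const).abs) c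

theorem small {a b c : ℝ} (ha : 0 < a) (hb : 0 < b) (hc : 0 < c) :
    ∃ m : ℕ, 1 / ((m : ℝ) + 1) < a ∧ 1 / ((m : ℝ) + 1) < b ∧ 1 / ((m : ℝ) + 1) < c := by
  obtain ⟨m, hm⟩ := exists_nat_one_div_lt (lt_min ha (lt_min hb hc))
  simp only [lt_min_iff] at hm
  exact ⟨m, hm⟩

theorem bdd (W : Set (WeakBall X)) :
    Bornology.IsBounded ((fun y : WeakBall X => (toWeakSpace ℝ X).symm y.1) '' W) :=
  (Metric.isBounded_closedBall (x := (0 : X)) (r := 1)).subset fun _ ⟨y, _, e⟩ =>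
    e ▸ mem_closedBall_zero_iff.2 y.2

theorem d2p_iff (hj : DenseRange j) (hμ : ∀ v, ‖j v‖ = μ v) : D2P X ↔ Cond R1 μ := by
  rw [cond_iff hj hμ]
  refine ⟨fun h x m n f hx _ => ?_, fun h W hW ⟨w, hw⟩ => le_antisymm ?_ ?_⟩
  · have p : (0 : ℝ) < 1 / ((m : ℝ) + 1) := by positivity
    have p1 : 1 / ((m : ℝ) + 1) ≤ 1 := (div_le_one (by positivity)).2 (by simp)
    have hd := h _ (open_W f (j x) (1 / ((m : ℝ) + 1)))
      ⟨⟨toWeakSpace ℝ X (j x), show ‖j x‖ ≤ 1 by rw [hμ]; linarith⟩, fun i => by simpa using p⟩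
    obtain ⟨y, hy, z, hz, hyz⟩ : ∃ y : WeakBall X, (∀ i, |f i ((toWeakSpace ℝ X).symm y.1) -
        f i (j x)| < 1 / ((m : ℝ) + 1)) ∧ ∃ z : WeakBall X, (∀ i, |f i ((toWeakSpace ℝ X).symm z.1) -
        f i (j x)| < 1 / ((m : ℝ) + 1)) ∧ 2 - 1 / ((m : ℝ) + 1) <
          ‖(toWeakSpace ℝ X).symm y.1 - (toWeakSpace ℝ X).symm z.1‖ := by
      by_contra! hc
      refine absurd (hd ▸ Metric.diam_le_of_forall_dist_le (C := 2 - 1 / ((m : ℝ) + 1))
        (by linarith) ?_) (by linarith)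
      rintro _ ⟨y, hy, rfl⟩ _ ⟨z, hz, rfl⟩
      rw [dist_eq_norm]
      exact hc y hy z hz
    obtain ⟨u, u1, u2, u3⟩ := approx hj y.2 (O := {a | ∀ i, |f i a - f i (j x)| <
      1 / ((m : ℝ) + 1)} ∩ {a | 2 - 1 / ((m : ℝ) + 1) < ‖a - (toWeakSpace ℝ X).symm z.1‖})
      ((open_all (by fun_prop) _).inter (isOpen_lt continuous_const (by fun_prop))) ⟨hy, hyz⟩
    obtain ⟨v, v1, v2, v3⟩ := approx hj z.2 (O := {a | ∀ i, |f i a - f i (j x)| <
      1 / ((m : ℝ) + 1)} ∩ {a | 2 - 1 / ((m : ℝ) + 1) < ‖j u - a‖})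
      ((open_all (by fun_prop) _).inter (isOpen_lt continuous_const (by fun_prop))) ⟨hz, u3⟩
    exact mem_iUnion.2 ⟨u, mem_iUnion.2 ⟨v, (hμ u).ge.trans_lt u1, (hμ v).ge.trans_lt v1, u2, v2,
      show _ < μ (u - v) by rw [← hμ, map_sub]; exact v3⟩⟩
  · refine Metric.diam_le_of_forall_dist_le (by norm_num) ?_
    rintro _ ⟨y, -, rfl⟩ _ ⟨z, -, rfl⟩
    rw [dist_eq_norm]
    linarith [norm_sub_le ((toWeakSpace ℝ X).symm y.1) ((toWeakSpace ℝ X).symm z.1), y.2, z.2]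
  · obtain ⟨n, f, δ, hδ, f1, hf⟩ := nhds_basis hW hw
    obtain ⟨x, x1, x2⟩ := approx hj w.2 (O := {a | ∀ i, |f i a -
      f i ((toWeakSpace ℝ X).symm w.1)| < δ / 2}) (open_all (by fun_prop) _)
      fun i => by simpa using hδ
    refine le_of_forall_pos_le_add fun ε hε => ?_
    obtain ⟨m, m1, m2, m3⟩ := small hε (half_pos hδ) (sub_pos.2 x1)
    obtain ⟨y, hy⟩ := mem_iUnion.1 (h x m n f (by rw [← hμ]; linarith) f1)
    obtain ⟨z, y1, z1, y2, z2, hyz⟩ := mem_iUnion.1 hy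
    have k : ∀ v, μ v < 1 → (∀ i, |f i (j v) - f i (j x)| < 1 / ((m : ℝ) + 1)) →
        j v ∈ (fun y : WeakBall X => (toWeakSpace ℝ X).symm y.1) '' W := fun v v1 v2 =>
      ⟨_, hf (j v) (by rw [hμ]; exact v1.le) fun i => by
        linarith [abs_sub_le (f i (j v)) (f i (j x)) (f i ((toWeakSpace ℝ X).symm w.1)),
          v2 i, x2 i], rfl⟩
    have := Metric.dist_le_diam_of_mem (bdd W) (k y y1 y2) (k z z1 z2)
    rw [dist_eq_norm, ← map_sub, hμ] at this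
    have hyz' : 2 - 1 / ((m : ℝ) + 1) < μ (y - z) := hyz
    linarith

theorem dd2p_iff (hj : DenseRange j) (hμ : ∀ v, ‖j v‖ = μ v) : DD2P X ↔ Cond R2 μ := by
  rw [cond_iff hj hμ]
  refine ⟨fun h x m n f hx _ => ?_, fun h W hW w hw ε hε => ?_⟩
  · have p : (0 : ℝ) < 1 / ((m : ℝ) + 1) := by positivity
    obtain ⟨y, hy, hxy⟩ := h _ (open_W f (j x) (1 / ((m : ℝ) + 1)))
      ⟨toWeakSpace ℝ X (j x), show ‖j x‖ ≤ 1 by rw [hμ]; linarith⟩ (fun i => by simpa using p)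
      _ (half_pos p)
    have hxy' : 1 + ‖j x‖ - 1 / ((m : ℝ) + 1) / 2 ≤ ‖j x - (toWeakSpace ℝ X).symm y.1‖ := hxy
    obtain ⟨u, u1, u2, u3⟩ := approx hj y.2 (O := {a | ∀ i, |f i a - f i (j x)| <
      1 / ((m : ℝ) + 1)} ∩ {a | 1 + ‖j x‖ - 1 / ((m : ℝ) + 1) < ‖j x - a‖})
      ((open_all (by fun_prop) _).inter (isOpen_lt continuous_const (by fun_prop)))
      ⟨hy, show _ < ‖j x - (toWeakSpace ℝ X).symm y.1‖ by linarith⟩
    exact mem_iUnion.2 ⟨u, (hμ u).ge.trans_lt u1, u2,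
      show 1 + μ x - _ < μ (x - u) by rw [← hμ, ← hμ, map_sub]; exact u3⟩
  · obtain ⟨n, f, δ, hδ, f1, hf⟩ := nhds_basis hW hw
    obtain ⟨x, x1, x2, x3⟩ := approx hj w.2 (O := {a | ∀ i, |f i a -
      f i ((toWeakSpace ℝ X).symm w.1)| < δ / 2} ∩ {a | ‖a - (toWeakSpace ℝ X).symm w.1‖ < ε / 3})
      ((open_all (by fun_prop) _).inter (isOpen_lt (by fun_prop) continuous_const))
      ⟨fun i => by simpa using hδ, by simpa using hε⟩
    obtain ⟨m, m1, m2, m3⟩ := small (show 0 < ε / 3 by positivity) (half_pos hδ) (sub_pos.2 x1)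
    obtain ⟨y, y1, y2, y3⟩ := mem_iUnion.1 (h x m n f (by rw [← hμ]; linarith) f1)
    have y2' : ∀ i, |f i (j y) - f i (j x)| < 1 / ((m : ℝ) + 1) := y2
    have y3' : 1 + μ x - 1 / ((m : ℝ) + 1) < μ (x - y) := y3
    have x3' : ‖j x - (toWeakSpace ℝ X).symm w.1‖ < ε / 3 := x3
    refine ⟨_, hf (j y) (by rw [hμ]; exact le_of_lt y1) fun i => by
      linarith [abs_sub_le (f i (j y)) (f i (j x)) (f i ((toWeakSpace ℝ X).symm w.1)),
        y2' i, x2 i], ?_⟩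
    rw [← hμ, ← hμ, map_sub] at y3'
    show _ ≤ ‖(toWeakSpace ℝ X).symm w.1 - j y‖
    linarith [norm_sub_le_norm_sub_add_norm_sub (j x) ((toWeakSpace ℝ X).symm w.1) (j y),
      (abs_le.1 (abs_norm_sub_norm_le (j x) ((toWeakSpace ℝ X).symm w.1))).1]

/-- The classes of the D2P and of the DD2P are G-delta subsets of the space of codes. -/
theorem result : IsGδ {μ : PInf | Has D2P μ.1} ∧ IsGδ {μ : PInf | Has DD2P μ.1} := by
  constructor
  · have : {μ : PInf | Has D2P μ.1} = Subtype.val ⁻¹' {μ | Cond R1 μ} := by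
      ext ⟨μ, h0, X, i1, i2, i3, ⟨j, hj, hμ⟩, h1⟩
      exact ⟨fun ⟨Y, _, _, _, ⟨k, hk, hν⟩, h⟩ => (d2p_iff hk hν).1 h,
        fun h => ⟨X, i1, i2, i3, ⟨j, hj, hμ⟩, (d2p_iff hj hμ).2 h⟩⟩
    rw [this]
    refine (isGδ fun x m n => isOpen_iUnion fun y => isOpen_iUnion fun z => ?_).preimage
      continuous_subtype_val
    exact (isOpen_lt (by fun_prop) continuous_const).and ((isOpen_lt (by fun_prop)
      continuous_const).and ((open_all (by fun_prop) _).and ((open_all (by fun_prop) _).and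
        (isOpen_lt continuous_const (by fun_prop)))))
  · have : {μ : PInf | Has DD2P μ.1} = Subtype.val ⁻¹' {μ | Cond R2 μ} := by
      ext ⟨μ, h0, X, i1, i2, i3, ⟨j, hj, hμ⟩, h1⟩
      exact ⟨fun ⟨Y, _, _, _, ⟨k, hk, hν⟩, h⟩ => (dd2p_iff hk hν).1 h,
        fun h => ⟨X, i1, i2, i3, ⟨j, hj, hμ⟩, (dd2p_iff hj hμ).2 h⟩⟩
    rw [this]
    refine (isGδ fun x m n => isOpen_iUnion fun y => ?_).preimage continuous_subtype_val
    exact (isOpen_lt (by fun_prop) continuous_const).and ((open_all (by fun_prop) _).and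
      (isOpen_lt (by fun_prop) (by fun_prop)))

end Pool.Agent.Results.MP_146262_an.GDelta
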